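import Pool.Agent.P.MP_bb7f8f_gt.Q2.All

namespace Pool.Agent.Results.MP_bb7f8f_gt.ModPoisson
open Pool.Agent.STS Finset Filter

/-- Q2.  Let `F` be a family of square-tiled surfaces in a stratum `Q(κ)` of dimension `d` with odd
orders and at most `M` poles, which contains all surfaces without automorphisms if `d ≥ d₀`.  The
generating polynomial of the proportions of surfaces with `k` maximal horizontal cylinders among
those with at most `N` squares is `d ^ ((t - 1) / 2) √π / Γ(t / 2) (1 + O(1 / d))` for large `N`,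
uniformly in the stratum, the family and `‖t‖ ≤ r < 2`, for both ways of counting. -/
theorem result (M d₀ : ℕ) (r : ℝ) (hr : r < 2) :
    ∃ C : ℝ, ∀ (g n : ℕ) (κ : Fin n → ℤ), 0 < n → (∀ j, Odd (κ j)) → (∀ j, -1 ≤ κ j) →
      (univ.filter fun j => κ j = -1).card ≤ M → ∑ j, κ j = 4 * (g : ℤ) - 4 →
      ∀ d : ℕ, d + 2 = 2 * g + n →
      ∀ F : ∀ m, Equiv.Perm (Side m) → Prop, (∀ m γ, F m γ → InStratum κ γ) →
      (d₀ ≤ d → ∀ m γ, InStratum κ γ → NoAut γ → F m γ) →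
      ∀ᶠ N : ℕ in atTop, ∀ t : ℂ, ‖t‖ ≤ r →
        ‖∑ k ∈ range (N + 1), (((numClasses (fun m γ => F m γ ∧ numCyl γ = k) N : ℝ) /
            numClasses F N : ℝ) : ℂ) * t ^ k -
          (d : ℂ) ^ ((t - 1) / 2) * (√Real.pi : ℝ) / Complex.Gamma (t / 2)‖ ≤
          C / d * ‖(d : ℂ) ^ ((t - 1) / 2) * (√Real.pi : ℝ) / Complex.Gamma (t / 2)‖ ∧
        ‖∑ k ∈ range (N + 1), ((mass (fun m γ => F m γ ∧ numCyl γ = k) N /
            mass F N : ℝ) : ℂ) * t ^ k -
          (d : ℂ) ^ ((t - 1) / 2) * (√Real.pi : ℝ) / Complex.Gamma (t / 2)‖ ≤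
          C / d * ‖(d : ℂ) ^ ((t - 1) / 2) * (√Real.pi : ℝ) / Complex.Gamma (t / 2)‖ :=
  Cy.main Cy.allBoot Cy.allSy Cy.allMass Cy.allSand Cy.allSum Cy.allFin M d₀ r hr

end Pool.Agent.Results.MP_bb7f8f_gt.ModPoisson
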