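import Pool.Agent.P.MP_bb7f8f_gt.Final

namespace Pool.Agent.Results.MP_bb7f8f_gt.OneLeaf
open Pool.Agent.STS Finset Filter

/-- Q1.  In a stratum `Q(κ)` of genus `g` with odd orders and at most `M` poles, for `g` large
(uniformly in `κ`) the proportion of square-tiled surfaces with at most `N` squares having all
singularities on one horizontal leaf and on one vertical leaf is at least `1 - ε` for all large
`N`; surfaces are counted up to isomorphism, without weights or with weights `1 / |Aut|`. -/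
theorem result (M : ℕ) (ε : ℝ) (hε : 0 < ε) :
    ∃ g₀ : ℕ, ∀ g : ℕ, g₀ ≤ g → ∀ (n : ℕ) (κ : Fin n → ℤ),
      (∀ j, Odd (κ j)) → (∀ j, -1 ≤ κ j) → (univ.filter fun j => κ j = -1).card ≤ M →
      ∑ j, κ j = 4 * (g : ℤ) - 4 →
      ∀ᶠ N : ℕ in atTop,
        (0 < numClasses (fun _ γ => InStratum κ γ) N ∧
          1 - ε ≤ (numClasses (fun _ γ => InStratum κ γ ∧ OneLeaf 1 γ ∧ OneLeaf 0 γ) N : ℝ) /
            (numClasses (fun _ γ => InStratum κ γ) N : ℝ)) ∧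
        (0 < mass (fun _ γ => InStratum κ γ) N ∧
          1 - ε ≤ mass (fun _ γ => InStratum κ γ ∧ OneLeaf 1 γ ∧ OneLeaf 0 γ) N /
            mass (fun _ γ => InStratum κ γ) N) := by
  obtain ⟨g₀, h⟩ := main M ε hε
  refine ⟨g₀, fun g hg n κ h1 h2 h3 h4 => (h g hg n κ h1 h2 h3 h4).mono fun N ⟨a1, a2⟩ => ?_⟩
  obtain ⟨b1, b2⟩ := class_union (fun _ γ => InStratum κ γ)
    (fun _ γ => InStratum κ γ ∧ OneLeaf 1 γ ∧ OneLeaf 0 γ)
    (fun _ γ => InStratum κ γ ∧ ¬ OneLeaf 1 γ) (fun _ γ => InStratum κ γ ∧ ¬ OneLeaf 0 γ)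
    (fun _ _ h => by tauto) (fun _ _ h => h.1) (fun _ _ h => h.1) (fun _ _ h => h.1) N
  have c0 := class_low (fun _ γ => InStratum κ γ) N
  have c1 := class_low (fun _ γ => InStratum κ γ ∧ ¬ OneLeaf 1 γ) N
  have c2 := class_low (fun _ γ => InStratum κ γ ∧ ¬ OneLeaf 0 γ) N
  have p := a1.trans_le c0
  have b1' : (numClasses (fun _ γ => InStratum κ γ) N : ℝ) ≤
      numClasses (fun _ γ => InStratum κ γ ∧ OneLeaf 1 γ ∧ OneLeaf 0 γ) N +
      numClasses (fun _ γ => InStratum κ γ ∧ ¬ OneLeaf 1 γ) N +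
      numClasses (fun _ γ => InStratum κ γ ∧ ¬ OneLeaf 0 γ) N := by exact_mod_cast b1
  have c3 := mul_le_mul_of_nonneg_left c0 hε.le
  refine ⟨⟨by exact_mod_cast p, ?_⟩, a1, ?_⟩
  · rw [le_div_iff₀ p]; linarith
  · rw [le_div_iff₀ a1]; linarith

end Pool.Agent.Results.MP_bb7f8f_gt.OneLeaf
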